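import Mathlib

/-!
Definitions for the Navier-Stokes equations projected on spaces with scalar constraints.
-/

namespace Pool.Agent.Run7.h407.LL

open Set Filter Topology MeasureTheory
open scoped ContDiff

/-- Points and vectors of `ℝ³`. -/
abbrev E3 : Type := Fin 3 → ℝ

/-- The maximum norm. -/
noncomputable def mag (v : E3) : ℝ := ‖v‖

/-- The distance of two points in the maximum norm. -/
noncomputable def dst (x z : E3) : ℝ := ‖x - z‖

/-- The integral over `ℝ³`. -/
noncomputable def total (f : E3 → ℝ) : ℝ := ∫ x, f x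

/-- The function is square integrable over `ℝ³`. -/
def SqInt (f : E3 → ℝ) : Prop := MemLp f 2 volume

/-- The fields are equal almost everywhere. -/
def AEEq (v w : E3 → E3) : Prop := ∀ᵐ x, v x = w x

/-- The derivative of a scalar function in the direction of the `j`-th axis. -/
noncomputable def pderiv (j : Fin 3) (f : E3 → ℝ) (x : E3) : ℝ := fderiv ℝ f x (Pi.single j 1)

/-- The divergence of a vector field. -/
noncomputable def divergence (u : E3 → E3) (x : E3) : ℝ := ∑ i, pderiv i (fun y => u y i) x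

/-- The acceleration `(u·∇)u`. -/
noncomputable def acceleration (u : E3 → E3) (x : E3) : E3 :=
  fun i => ∑ j, u x j * pderiv j (fun y => u y i) x

/-- `U` is a steady Euler flow: the curl of `(U·∇)U` vanishes (so that `(U·∇)U` is a gradient). -/
def IsSteady (U : E3 → E3) : Prop := ∀ (i j : Fin 3) (x : E3),
  pderiv i (fun y => acceleration U y j) x = pderiv j (fun y => acceleration U y i) x

/-- Smooth vector fields with compact support. -/
def SmoothCompact (v : E3 → E3) : Prop := ContDiff ℝ ∞ v ∧ HasCompactSupport v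

/-- Smooth divergence-free vector fields with compact support. -/
def IsTestField (v : E3 → E3) : Prop := SmoothCompact v ∧ ∀ x, divergence v x = 0

/-- Smooth scalar functions with compact support. -/
def IsTest (φ : E3 → ℝ) : Prop := ContDiff ℝ ∞ φ ∧ HasCompactSupport φ

/-- The field vanishes outside the ball `|x - z| ≤ ρ`. -/
def InBall (z : E3) (ρ : ℝ) (v : E3 → E3) : Prop := ∀ x, ρ < dst x z → v x = 0

/-- The point `z` is not in the support of the field. -/
def VanishesNear (z : E3) (v : E3 → E3) : Prop := ∃ ρ > 0, ∀ x, dst x z < ρ → v x = 0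

/-- The translate `v(x - z)`. -/
def shift (z : E3) (v : E3 → E3) : E3 → E3 := fun x => v (x - z)

/-- The multiple `a v`. -/
def scale (a : ℝ) (v : E3 → E3) : E3 → E3 := fun x i => a * v x i

/-- The sum of two fields. -/
def plus (v w : E3 → E3) : E3 → E3 := fun x i => v x i + w x i

/-- The `L²` inner product `∫ u · v dx`. -/
noncomputable def innerL2 (u v : E3 → E3) : ℝ := total fun x => ∑ i, u x i * v x i

/-- The Dirichlet form `∫ ∇u : ∇v dx`. -/
noncomputable def dirichlet (u v : E3 → E3) : ℝ :=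
  total fun x => ∑ i, ∑ j, pderiv j (fun y => u y i) x * pderiv j (fun y => v y i) x

/-- The `i`-th component of `∂ₜu + (u·∇)u - ν Δu` at time `t` and position `x`. -/
noncomputable def residual (ν : ℝ) (u : ℝ → E3 → E3) (t : ℝ) (x : E3) (i : Fin 3) : ℝ :=
  deriv (fun s => u s x i) t + ∑ j, u t x j * pderiv j (fun y => u t y i) x
    - ν * ∑ j, pderiv j (pderiv j (fun y => u t y i)) x

/-- Square integrable fields whose divergence vanishes in the sense of distributions. -/
def IsSolenoidal (w : E3 → E3) : Prop :=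
  (∀ i, SqInt (fun x => w x i)) ∧
    ∀ φ, IsTest φ → total (fun x => ∑ i, w x i * pderiv i φ x) = 0

/-- The constraints: `w` is orthogonal to all the fields `g n i`. -/
def Constrained (g : ℕ → Fin 3 → E3 → E3) (w : E3 → E3) : Prop :=
  ∀ (n : ℕ) (i : Fin 3), innerL2 w (g n i) = 0

/-- The linear spaces `W` of square integrable divergence-free fields satisfying the constraints
which contain all smooth compactly supported fields of the form `∑ c_n p_n`. -/
structure IsSpace (p : ℕ → E3 → E3) (g : ℕ → Fin 3 → E3 → E3) (W : Set (E3 → E3)) : Prop where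
  linear : ∀ v ∈ W, ∀ w ∈ W, ∀ a b : ℝ, plus (scale a v) (scale b w) ∈ W
  upper : ∀ w ∈ W, IsSolenoidal w ∧ Constrained g w
  lower : ∀ v, SmoothCompact v →
    (∃ c : ℕ → ℝ, ∀ x i, HasSum (fun n => c n * p n x i) (v x i)) → v ∈ W

/-- `f` is square integrable and `∫ f² ≤ C`. -/
def SqBound (C : ℝ) (f : E3 → ℝ) : Prop := SqInt f ∧ total (fun x => f x ^ 2) ≤ C

/-- The time-dependent field is smooth on `I × ℝ³`. -/
def SmoothOn (I : Set ℝ) (u : ℝ → E3 → E3) : Prop :=
  ContDiffOn ℝ ∞ (fun z : ℝ × E3 => u z.1 z.2) (I ×ˢ univ)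

/-- `u` is a solution on `[0,T)` of the Navier-Stokes equations projected on the space `W`:
it is smooth on `[0,T) × ℝ³` up to `t = 0`; `u(t)` is in `W`; `u` is bounded, and `u`, its first
and second derivatives in `x` and its time derivative are bounded in `L²`, uniformly for
`0 ≤ t ≤ s` for every `s < T`; and for `0 < t < T` the residual `∂ₜu + (u·∇)u - ν Δu` is
orthogonal to `W` (the pressure drops out, since the fields in `W` are divergence-free). -/
structure IsProjected (W : Set (E3 → E3)) (ν T : ℝ) (u : ℝ → E3 → E3) : Prop where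
  smooth : SmoothOn (Ico 0 T) u
  mem : ∀ t ∈ Ico 0 T, u t ∈ W
  bound : ∀ s ∈ Ico 0 T, ∃ C : ℝ, ∀ t ∈ Icc 0 s, (∀ x, mag (u t x) ≤ C) ∧
    ∀ i, SqBound C (fun x => u t x i) ∧ (∀ j, SqBound C (pderiv j (fun y => u t y i))) ∧
      (∀ j k, SqBound C (pderiv j (pderiv k (fun y => u t y i)))) ∧
      (0 < t → SqBound C (fun x => deriv (fun s => u s x i) t))
  eqn : ∀ t ∈ Ioo 0 T, ∀ w ∈ W, total (fun x => ∑ i, residual ν u t x i * w x i) = 0

/-- `D` is the gradient of `w` in the sense of distributions, `D i j = ∂_j w_i`, and it is square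
integrable. -/
def IsWeakGradient (w : E3 → E3) (D : Fin 3 → Fin 3 → E3 → ℝ) : Prop :=
  ∀ i j, SqInt (D i j) ∧
    ∀ φ, IsTest φ → total (fun x => w x i * pderiv j φ x) = -total (fun x => D i j x * φ x)

/-- The integrand `v · ∂ₜψ + v ⊗ v : ∇ψ + ν v · Δψ` of the weak formulation. -/
noncomputable def weakIntegrand (ν : ℝ) (v ψ : ℝ → E3 → E3) (s : ℝ) (x : E3) : ℝ :=
  ∑ i, (v s x i * deriv (fun r => ψ r x i) s
    + (∑ j, v s x i * v s x j * pderiv j (fun y => ψ s y i) x)
    + ν * (v s x i * ∑ j, pderiv j (pderiv j (fun y => ψ s y i)) x))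

/-- `v` is a Leray-Hopf solution on `[0,T)` of the Navier-Stokes equations projected on `W`: it is
measurable on `(0,T) × ℝ³`; `v(t)` is in `W` for all `t`; for `ν > 0` it has a square integrable
gradient for almost all `t`; the energy inequality holds at all times `t < T` (from the time
`0`); and the equations hold in the weak sense when tested with the fields `ψ` which are smooth
on `[0,t] × ℝ³`, supported in a fixed ball and in `W` at all times. -/
structure IsLerayHopf (W : Set (E3 → E3)) (ν T : ℝ) (v : ℝ → E3 → E3) : Prop where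
  measurable : AEStronglyMeasurable (fun z : ℝ × E3 => v z.1 z.2)
    (volume.restrict (Ioo 0 T ×ˢ univ))
  mem : ∀ t ∈ Ico 0 T, v t ∈ W
  energy : ∃ D : ℝ → Fin 3 → Fin 3 → E3 → ℝ,
    (0 < ν → ∀ᵐ s ∂(volume.restrict (Ioo 0 T)), IsWeakGradient (v s) (D s)) ∧
    ∀ t ∈ Ico 0 T,
      IntervalIntegrable (fun s => total fun x => ∑ i, ∑ j, D s i j x ^ 2) volume 0 t ∧
      innerL2 (v t) (v t) + 2 * ν * (∫ s in (0 : ℝ)..t, total fun x => ∑ i, ∑ j, D s i j x ^ 2)
        ≤ innerL2 (v 0) (v 0)
  weak : ∀ t ∈ Ioo 0 T, ∀ ψ : ℝ → E3 → E3, SmoothOn (Icc 0 t) ψ →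
    (∃ ρ, ∀ s ∈ Icc 0 t, InBall 0 ρ (ψ s)) → (∀ s ∈ Icc 0 t, ψ s ∈ W) →
    innerL2 (v t) (ψ t) - innerL2 (v 0) (ψ 0) = ∫ s in (0 : ℝ)..t, total (weakIntegrand ν v ψ s)

/-- The universal modes `P m` and constraint fields `G m i`: smooth fields supported in the ball
`|x| ≤ 2^(-q^m)`; the modes are divergence-free and not zero; the constraint fields vanish
near `0`. -/
structure IsUniversal (q : ℝ) (P : ℕ → E3 → E3) (G : ℕ → Fin 3 → E3 → E3) : Prop where
  mode : ∀ m, IsTestField (P m) ∧ 0 < innerL2 (P m) (P m) ∧ InBall 0 (2 ^ (-(q ^ m))) (P m)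
  field : ∀ m i, SmoothCompact (G m i) ∧ VanishesNear 0 (G m i) ∧
    InBall 0 (2 ^ (-(q ^ m))) (G m i)

/-- The modes `p n` and the constraint fields `g n i`: `p 0 = U`; the modes are smooth compactly
supported divergence-free fields, none of them zero, mutually orthogonal in `L²` and for the
Dirichlet form; the constraint fields are smooth, compactly supported, and vanish near `z`; for
`n ≥ 3` both are the universal ones with the index `n + k`, translated to the point `z`; and all
square integrable divergence-free fields which satisfy the constraints form an admissible space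
(the largest one). -/
structure IsFamily (P : ℕ → E3 → E3) (G : ℕ → Fin 3 → E3 → E3) (k : ℕ) (z : E3) (U : E3 → E3)
    (p : ℕ → E3 → E3) (g : ℕ → Fin 3 → E3 → E3) : Prop where
  first : p 0 = U
  mode : ∀ n, IsTestField (p n) ∧ 0 < innerL2 (p n) (p n)
  orthogonal : ∀ m n, m ≠ n → innerL2 (p m) (p n) = 0 ∧ dirichlet (p m) (p n) = 0
  field : ∀ n i, SmoothCompact (g n i) ∧ VanishesNear z (g n i)
  universal : ∀ n ≥ 3, p n = shift z (P (n + k)) ∧ ∀ i, g n i = shift z (G (n + k) i)
  largest : IsSpace p g {w | IsSolenoidal w ∧ Constrained g w}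

/-- Blow-up at `z` from the datum `v` before the time `T₀`, at viscosity `ν`: there are `T ≤ T₀`
and a field `u` on `[0,T)` with `u(0) = v`, supported in a fixed ball, with
`|u(t,x)| ≤ C |x - z|^(3-4q)`, whose `L³` norm and supremum tend to infinity as `t → T`, and which
solves the equations projected on `W` for all admissible spaces `W` at once. For each of these
spaces every solution with the datum `v` is a restriction of `u`, in particular none exists
beyond `T`; and every Leray-Hopf solution with the datum `v` coincides with `u` on `[0,T)`. -/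
def BlowsUp (q : ℝ) (z : E3) (p : ℕ → E3 → E3) (g : ℕ → Fin 3 → E3 → E3) (ν : ℝ) (v : E3 → E3)
    (T₀ : ℝ) : Prop :=
  ∃ T, 0 < T ∧ T ≤ T₀ ∧ ∃ u : ℝ → E3 → E3, u 0 = v ∧
    (∃ ρ, ∀ t ∈ Ico 0 T, InBall z ρ (u t)) ∧
    (∃ C, ∀ t ∈ Ico 0 T, ∀ x, mag (u t x) * dst x z ^ (4 * q - 3) ≤ C) ∧
    Tendsto (fun t => total fun x => mag (u t x) ^ 3) (𝓝[<] T) atTop ∧
    (∀ M, ∀ᶠ t in 𝓝[<] T, ∃ x, M < mag (u t x)) ∧
    ∀ W : Set (E3 → E3), IsSpace p g W → IsProjected W ν T u ∧
      (∀ (T' : ℝ) (w : ℝ → E3 → E3), IsProjected W ν T' w → w 0 = v →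
        T' ≤ T ∧ ∀ t ∈ Ico 0 T', w t = u t) ∧
      ∀ (T' : ℝ) (w : ℝ → E3 → E3), IsLerayHopf W ν T' w → AEEq (w 0) v →
        ∀ t ∈ Ico 0 T', t < T → AEEq (w t) (u t)

end Pool.Agent.Run7.h407.LL
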