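import Mathlib
import Pool.Agent.Run7.h407.LL.Defs
import Pool.Agent.Run7.h407.LH.Proj
import Pool.Agent.Run7.h407.DU.FinU

/-!
The blow-up theorem in terms of the definitions of LL/Defs.
-/

namespace Pool.Agent.Run7.h407.LL

open Set Filter Topology MeasureTheory
open scoped ContDiff

/-- An admissible space as a submodule. -/
def IsSpace.sub {p : ℕ → E3 → E3} {g : ℕ → Fin 3 → E3 → E3} {W : Set (E3 → E3)}
    (h : IsSpace p g W) : Submodule ℝ (E3 → E3) where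
  carrier := W
  add_mem' := fun {v w} hv hw => by
    have h1 := h.linear v hv w hw 1 1
    have e : plus (scale 1 v) (scale 1 w) = v + w := by
      funext x i
      simp [plus, scale]
    rwa [e] at h1
  zero_mem' := h.lower 0 ⟨contDiff_const, HasCompactSupport.zero⟩
    ⟨fun _ => 0, fun x i => by simpa using (hasSum_zero : HasSum (fun _ : ℕ => (0 : ℝ)) 0)⟩
  smul_mem' := fun a v hv => by
    have h1 := h.linear v hv v hv a 0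
    have e : plus (scale a v) (scale 0 v) = a • v := by
      funext x i
      simp [plus, scale]
    rwa [e] at h1

open Pool.Agent.Run7.h407 Pool.Agent.Run7.h407.G in
theorem IsSpace.spg {p : ℕ → E3 → E3} {g : ℕ → Fin 3 → E3 → E3} {W : Set (E3 → E3)}
    (h : IsSpace p g W) : IsSpG p g h.sub :=
  ⟨fun w hw => (h.upper w hw).1.1, fun w hw => fun φ h1 h2 => (h.upper w hw).1.2 φ ⟨h1, h2⟩,
    fun w hw => (h.upper w hw).2, fun v h1 h2 ⟨c, hc⟩ => h.lower v ⟨h1, h2⟩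
      ⟨c, fun x i => (Pi.hasSum.1 (hc x)) i⟩⟩

open Pool.Agent.Run7.h407 in
theorem proj_iff {p : ℕ → E3 → E3} {g : ℕ → Fin 3 → E3 → E3} {W : Set (E3 → E3)}
    (h : IsSpace p g W) {ν T : ℝ} {u : ℝ → E3 → E3} :
    IsProjected W ν T u ↔ IsProj h.sub ν T u :=
  ⟨fun h => ⟨⟨h.smooth, h.bound⟩, h.mem, h.eqn⟩, fun h => ⟨h.cls.sm, h.mem, h.cls.bd, h.eqn⟩⟩

open Pool.Agent.Run7.h407.LH in
theorem lerayHopf_iff {p : ℕ → E3 → E3} {g : ℕ → Fin 3 → E3 → E3} {W : Set (E3 → E3)}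
    (h : IsSpace p g W) {ν T : ℝ} {v : ℝ → E3 → E3} :
    IsLerayHopf W ν T v ↔ IsLH h.sub ν T v := by
  have e : ∀ x : E3, dst x 0 = ‖x‖ := fun x => by
    show ‖x - 0‖ = ‖x‖
    rw [sub_zero]
  constructor
  · intro h
    refine ⟨h.measurable, h.mem, ?_, fun t ht ψ h1 ⟨ρ, h2⟩ h3 => h.weak t ht ψ h1
      ⟨ρ, fun s hs x hx => h2 s hs x (by rwa [e] at hx)⟩ h3⟩
    obtain ⟨D, h1, h2⟩ := h.energy
    refine ⟨D, fun hν => ?_, h2⟩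
    filter_upwards [h1 hν] with s hs i j
    exact ⟨(hs i j).1, fun φ h3 h4 => (hs i j).2 φ ⟨h3, h4⟩⟩
  · intro h
    refine ⟨h.meas, h.mem, ?_, fun t ht ψ h1 ⟨ρ, h2⟩ h3 => h.weak t ht ψ h1
      ⟨ρ, fun s hs x hx => h2 s hs x (by rwa [e])⟩ h3⟩
    obtain ⟨D, h1, h2⟩ := h.en
    refine ⟨D, fun hν => ?_, h2⟩
    filter_upwards [h1 hν] with s hs i j
    exact ⟨(hs i j).1, fun φ h3 => (hs i j).2 φ h3.1 h3.2⟩

theorem vanishes_iff {z : E3} {v : E3 → E3} : VanishesNear z v ↔ ∀ᶠ x in 𝓝 z, v x = 0 := by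
  rw [Metric.eventually_nhds_iff]
  constructor
  · rintro ⟨ρ, h1, h2⟩
    exact ⟨ρ, h1, fun x hx => h2 x (by rwa [dist_eq_norm] at hx)⟩
  · rintro ⟨ρ, h1, h2⟩
    exact ⟨ρ, h1, fun x hx => h2 (by rwa [dist_eq_norm])⟩

theorem inBall_iff {z : E3} {ρ : ℝ} {v : E3 → E3} :
    InBall z ρ v ↔ ∀ x, v x ≠ 0 → ‖x - z‖ ≤ ρ := by
  constructor
  · intro h x hx
    by_contra hcon
    exact hx (h x (not_le.1 hcon))
  · intro h x hx
    by_contra hcon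
    exact absurd (h x hcon) (not_le.2 hx)

theorem inBall_zero {ρ : ℝ} {v : E3 → E3} (h : ∀ x, v x ≠ 0 → ‖x‖ ≤ ρ) : InBall 0 ρ v :=
  inBall_iff.2 fun x hx => by
    rw [sub_zero]
    exact h x hx

open Pool.Agent.Run7.h407.G.X in
theorem universal_of {q : ℝ} {P : ℕ → E3 → E3} {G : ℕ → Fin 3 → E3 → E3} (h : UF q P G) :
    IsUniversal q P G :=
  ⟨fun m => ⟨⟨⟨(h.mode m).1, (h.mode m).2.1⟩, (h.mode m).2.2.1⟩, (h.mode m).2.2.2,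
      inBall_zero (h.ballP m)⟩,
    fun m i => ⟨⟨(h.field m i).1, (h.field m i).2.1⟩, vanishes_iff.2 (h.field m i).2.2,
      inBall_zero (h.ballG m i)⟩⟩

open Pool.Agent.Run7.h407.G.X in
theorem family_of {q : ℝ} {P : ℕ → E3 → E3} {G : ℕ → Fin 3 → E3 → E3} {k : ℕ} {z : E3}
    {U : E3 → E3} {p : ℕ → E3 → E3} {g : ℕ → Fin 3 → E3 → E3}
    (h : Fam q z U p g) (ht : Tail P G k z p g) : IsFamily P G k z U p g := by
  obtain ⟨Wm, hWm, hWi⟩ := h.big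
  have key : ∀ w, w ∈ Wm ↔ IsSolenoidal w ∧ Constrained g w := by
    intro w
    rw [hWi]
    exact ⟨fun h => ⟨⟨h.1, fun φ h1 => h.2.1 φ h1.1 h1.2⟩, h.2.2⟩,
      fun h => ⟨h.1.1, fun φ h1 h2 => h.1.2 φ ⟨h1, h2⟩, h.2⟩⟩
  refine ⟨h.zero, fun n => ⟨⟨⟨(h.mode n).1, (h.mode n).2.1⟩, (h.mode n).2.2.1⟩,
    (h.mode n).2.2.2⟩, h.orth, fun n i => ⟨⟨(h.field n i).1, (h.field n i).2.1⟩,
    vanishes_iff.2 (h.field n i).2.2⟩, fun n hn => ?_, ?_⟩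
  · obtain ⟨m, rfl⟩ := Nat.exists_eq_add_of_le' hn
    exact ht m
  · refine ⟨fun v hv w hw a b => ?_, fun w hw => hw, fun v hv ⟨c, hc⟩ => ?_⟩
    · refine (key _).1 ?_
      exact Wm.add_mem (Wm.smul_mem a ((key v).2 hv)) (Wm.smul_mem b ((key w).2 hw))
    · exact (key v).1 (hWm.mem v hv.1 hv.2 ⟨c, fun x => Pi.hasSum.2 (hc x)⟩)

open Pool.Agent.Run7.h407 Pool.Agent.Run7.h407.G.X in
theorem blowsUp_of {q ρ ν T₀ : ℝ} (hν : 0 ≤ ν) {z : E3} {p : ℕ → E3 → E3}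
    {g : ℕ → Fin 3 → E3 → E3} {v : E3 → E3} (h : Blo (4 * (q - 1)) z ρ p g ν v T₀) :
    BlowsUp q z p g ν v T₀ := by
  obtain ⟨T, hT, hTA, u, k1, k2, k3, k4, k5, k6⟩ := h
  rw [show 1 + 4 * (q - 1) = 4 * q - 3 by ring] at k3
  refine ⟨T, hT, hTA, u, k1, ⟨ρ, k2⟩, k3, k4, k5, fun W hW => ?_⟩
  have hs := hW.spg
  obtain ⟨k7, k8⟩ := k6 hW.sub hs
  refine ⟨(proj_iff hW).2 k7, fun T' w hw h0 => k8 T' w ((proj_iff hW).1 hw) h0,
    fun T' w hw h0 => ?_⟩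
  have hu : TF T (ρ + ‖z‖) u := by
    refine ⟨k7.cls.sm, fun t ht x hx => k2 t ht x ?_⟩
    have := norm_sub_norm_le x z
    linarith
  apply LH.lh_unique hν hu hs.l2 hs.wdf k7.mem k7.eqn ((lerayHopf_iff hW).1 hw)
  filter_upwards [h0] with x hx
  rw [hx, k1]

open Pool.Agent.Run7.h407 Pool.Agent.Run7.h407.G.X in
theorem om_of_not_steady {U : E3 → E3} (h : ¬ IsSteady U) :
    ∃ i x, om i (adv U U) x ≠ 0 := by
  by_contra hcon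
  push Not at hcon
  apply h
  intro i j x
  have h1 := wg_le (adv U U) i j x
  simp only [hcon, abs_zero, Finset.sum_const_zero] at h1
  have h2 := abs_nonpos_iff.1 h1
  unfold wg at h2
  exact sub_eq_zero.1 h2

theorem main (q : ℝ) (hq : 1 < q) (hq' : q < 5 / 4) :
    ∃ (P : ℕ → E3 → E3) (G : ℕ → Fin 3 → E3 → E3), IsUniversal q P G ∧
    (∀ (U : E3 → E3) (z : E3), IsTestField U →
      (¬ IsSteady U → VanishesNear z U → ∃ k₀ : ℕ, ∀ k ≥ k₀,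
        ∃ (p : ℕ → E3 → E3) (g : ℕ → Fin 3 → E3 → E3), IsFamily P G k z U p g ∧
        ∃ A₀ > 0, ∀ ν ≥ 0, ∀ a > 0, A₀ * ν ≤ a → BlowsUp q z p g ν (scale a U) (A₀ / a)) ∧
      (∀ r ε N : ℝ, 0 < r → r < 3 → q ≤ 1 + (3 - r) / 8 → 0 < ε → ∃ k₀ : ℕ, ∀ k ≥ k₀,
        ∃ F : E3 → E3, IsTestField F ∧ InBall z ε F ∧ total (fun x => mag (F x) ^ r) ≤ ε ∧
        ∃ (p : ℕ → E3 → E3) (g : ℕ → Fin 3 → E3 → E3), IsFamily P G k z (plus U F) p g ∧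
          ∀ ν, 0 ≤ ν → ν ≤ N → BlowsUp q z p g ν (plus U F) ε)) ∧
    (∀ (p : ℕ → E3 → E3) (g : ℕ → Fin 3 → E3 → E3) (W : Set (E3 → E3)),
      IsSpace p g W → ∀ (ν T : ℝ) (w : ℝ → E3 → E3), IsProjected W ν T w →
        IsLerayHopf W ν T w ∧ ∀ t ∈ Ico 0 T, (∀ x, divergence (w t) x = 0) ∧
          innerL2 (w t) (w t) + 2 * ν * ∫ s in (0 : ℝ)..t, dirichlet (w s) (w s)
            = innerL2 (w 0) (w 0)) := by
  obtain ⟨X, M⟩ := G.X.exists_mst hq hq'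
  have hδ : 0 ≤ 1 + 4 * (q - 1) := by linarith
  have hη : 0 < 2 * (1 + 4 * (q - 1)) - q * (4 * q - 2) := by nlinarith
  refine ⟨_, _, universal_of M.uf, fun U z hU => ⟨fun hUs hz => ?_,
    fun r ε N hr hr3 hqr hε => ?_⟩, fun p g W hW ν T w hw => ⟨?_, fun t ht => ?_⟩⟩
  · obtain ⟨k₀, hk₀⟩ := G.X.mainAU M hq' hδ hη ⟨hU.1.1, hU.1.2⟩ hU.2
      (om_of_not_steady hUs) (vanishes_iff.1 hz)
    refine ⟨k₀, fun k hk => ?_⟩
    obtain ⟨p, g, _, h1, h2, A₀, hA, H⟩ := hk₀ k hk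
    exact ⟨p, g, family_of h1 h2, A₀, hA, fun ν hν a ha haν => blowsUp_of hν (H ν hν a ha haν)⟩
  · obtain ⟨k₀, hk₀⟩ := G.X.mainBzU M hq' hδ hη ⟨hU.1.1, hU.1.2⟩ hU.2 z (N := N)
      hr hr3 hqr hε
    refine ⟨k₀, fun k hk => ?_⟩
    obtain ⟨F, h1, h2, h3, h4, p, g, _, h5, h6, h7⟩ := hk₀ k hk
    exact ⟨F, ⟨⟨h1.sm, h1.cs⟩, h2⟩, inBall_iff.2 h3, h4, p, g, family_of h5 h6,
      fun ν h8 h9 => blowsUp_of h8 (h7 ν h8 h9)⟩
  · exact (lerayHopf_iff hW).2 (LH.lh_of_proj ((proj_iff hW).1 hw) hW.spg.wdf)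
  · exact ⟨G.IsProj.dvgG hW.spg ((proj_iff hW).1 hw) ht,
      G.IsProj.energyG hW.spg ((proj_iff hW).1 hw) ht⟩

end Pool.Agent.Run7.h407.LL
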